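import Pool.Agent.Helper16.DIL.Spec

/-!
# NUM: numerics
-/

set_option autoImplicit false
set_option linter.all false

namespace Pool.Agent.Helper47.DIL.NUM

open Finset Matrix MeasureTheory Pool.Agent.Helper68K9.SG Pool.Agent.Helper16.DIL

theorem log_bd (m : ℕ) : ∃ M : ℝ, 1 ≤ M ∧ ∀ N : ℕ, 1 ≤ N →
    ((Nat.log 2 N + 1 : ℕ) : ℝ) ^ m ≤ M * N := by
  have h := tendsto_pow_const_div_const_pow_of_one_lt m (one_lt_two : (1 : ℝ) < 2)
  obtain ⟨M, hM⟩ := h.bddAbove_range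
  refine ⟨2 * max M 1, ?_, ?_⟩
  · have := le_max_right M 1; linarith
  · intro N hN
    set q := Nat.log 2 N + 1 with hq
    have h1 : (q : ℝ) ^ m / 2 ^ q ≤ M := hM ⟨q, rfl⟩
    have h2 : (q : ℝ) ^ m ≤ max M 1 * 2 ^ q := by
      rw [div_le_iff₀ (by positivity)] at h1
      exact h1.trans (mul_le_mul_of_nonneg_right (le_max_left _ _) (by positivity))
    have h3 : (2 : ℝ) ^ q ≤ 2 * N := by
      have h4 : 2 ^ Nat.log 2 N ≤ N := Nat.pow_log_le_self 2 (by omega)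
      have h5 : (2 : ℝ) ^ Nat.log 2 N ≤ N := by exact_mod_cast h4
      rw [hq, pow_succ]
      linarith
    calc (q : ℝ) ^ m ≤ max M 1 * 2 ^ q := h2
      _ ≤ max M 1 * (2 * N) := mul_le_mul_of_nonneg_left h3 (le_trans zero_le_one (le_max_right _ _))
      _ = _ := by ring

theorem main : S_NUM := by
  intro ε A B hε hA hB
  obtain ⟨a, ha⟩ : ∃ a : ℕ, (A + B + 2) / ε ≤ ((2 ^ (a + 1) : ℕ) : ℝ) := by
    obtain ⟨k, hk⟩ := exists_nat_ge ((A + B + 2) / ε)
    refine ⟨k, hk.trans ?_⟩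
    have h1 : k < 2 ^ k := Nat.lt_two_pow_self
    have h2 : 2 ^ k ≤ 2 ^ (k + 1) := Nat.pow_le_pow_right (by norm_num) (by omega)
    exact_mod_cast (h1.le.trans h2)
  set K : ℕ := 2 ^ (a + 1) with hK
  have hK1 : 1 ≤ K := Nat.one_le_two_pow
  obtain ⟨M, hM1, hM⟩ := log_bd (K * K)
  set C : ℝ := 8 * K * M with hC
  have hK1' : (1 : ℝ) ≤ K := by exact_mod_cast hK1
  have hC1 : 8 ≤ C := by
    rw [hC]
    nlinarith [mul_le_mul hK1' hM1 zero_le_one (by linarith)]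
  have hCK : C ≤ C ^ K := le_self_pow₀ (by linarith) (by omega)
  refine ⟨a, K * (⌈B⌉₊ + 2), C, by linarith, ?_⟩
  intro N R D L hN hD hR hL
  have hx : (1 : ℝ) ≤ N := by exact_mod_cast hN
  set x : ℝ := (N : ℝ) with hxd
  have hx0 : 0 < x := by linarith
  set r : ℝ := (R : ℝ) with hr
  have hr0 : 0 ≤ r := Nat.cast_nonneg R
  have hL1 : 1 ≤ L := (one_le_pow₀ hx).trans hL
  set P : ℝ := x ^ (-A) * (x ^ ε) ^ K with hP
  have hPe : P = x ^ (ε * K - A) := by
    rw [hP, ← Real.rpow_natCast (x ^ ε) K, ← Real.rpow_mul hx0.le, ← Real.rpow_add hx0]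
    congr 1; ring
  have hexp : 2 + B ≤ ε * K - A := by
    rw [div_le_iff₀ hε] at ha
    have : ((K : ℕ) : ℝ) * ε = ε * K := mul_comm _ _
    linarith
  have hxB : 1 ≤ x ^ B := Real.one_le_rpow hx hB
  have hP2 : x ^ 2 * x ^ B ≤ P := by
    rw [hPe]
    calc x ^ 2 * x ^ B = x ^ (2 + B) := by
          rw [Real.rpow_add hx0]; norm_num
      _ ≤ _ := Real.rpow_le_rpow_of_exponent_le hx hexp
  have hP1 : 1 ≤ P := by
    have h1 : 1 ≤ x ^ 2 * x ^ B := by
      have : 1 ≤ x ^ 2 := one_le_pow₀ hx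
      nlinarith
    linarith
  have hxr : 1 ≤ x + r := by linarith
  have hxrK : 1 ≤ (x + r) ^ K := one_le_pow₀ hxr
  have hRHS : x ^ (-A) * L * (C * x ^ ε * (x + r)) ^ K = P * L * C ^ K * (x + r) ^ K := by
    rw [mul_pow, mul_pow, hP]; ring
  rw [hRHS]
  push_cast
  rw [← hxd, ← hr]
  have hT1 : L * (2 ^ (a + 1) * ((Nat.log 2 N : ℝ) + 1) ^ (2 ^ (a + 1) * 2 ^ (a + 1)) *
      (x + r) ^ (2 ^ (a + 1) + 1)) ≤ 1 / 2 * (P * L * C ^ K * (x + r) ^ K) := by
    have h1 : ((Nat.log 2 N : ℝ) + 1) ^ (K * K) ≤ M * x := by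
      have := hM N hN
      push_cast at this
      exact this
    have h2 : x + r ≤ 2 * (x * x ^ B) := by
      have h3 : r ≤ x ^ B := hR
      have h4 : x ^ B ≤ x * x ^ B := by nlinarith
      have h5 : x ≤ x * x ^ B := by nlinarith
      linarith
    have h3 : (K : ℝ) * ((Nat.log 2 N : ℝ) + 1) ^ (K * K) * (x + r) ≤ 1 / 2 * (P * C ^ K) := by
      calc (K : ℝ) * ((Nat.log 2 N : ℝ) + 1) ^ (K * K) * (x + r) ≤
            (K : ℝ) * (M * x) * (2 * (x * x ^ B)) := by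
            refine mul_le_mul (mul_le_mul_of_nonneg_left h1 (by positivity)) h2 (by positivity) ?_
            positivity
        _ = 1 / 2 * ((4 * K * M) * (x ^ 2 * x ^ B)) := by ring
        _ ≤ 1 / 2 * (C ^ K * P) := by
            refine mul_le_mul_of_nonneg_left (mul_le_mul ?_ hP2 (by positivity) (by positivity))
              (by norm_num)
            have : 4 * K * M ≤ C := by
              rw [hC]; nlinarith [mul_nonneg (by linarith : (0:ℝ) ≤ K) (by linarith : (0:ℝ) ≤ M)]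
            linarith
        _ = _ := by ring
    have h4 : ((2 : ℝ) ^ (a + 1)) = (K : ℝ) := by rw [hK]; push_cast; ring
    rw [h4]
    calc L * ((K : ℝ) * ((Nat.log 2 N : ℝ) + 1) ^ (2 ^ (a + 1) * 2 ^ (a + 1)) *
          (x + r) ^ (2 ^ (a + 1) + 1))
        = L * (x + r) ^ K * ((K : ℝ) * ((Nat.log 2 N : ℝ) + 1) ^ (K * K) * (x + r)) := by
          rw [pow_succ]; ring
      _ ≤ L * (x + r) ^ K * (1 / 2 * (P * C ^ K)) :=
          mul_le_mul_of_nonneg_left h3 (by positivity)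
      _ = _ := by ring
  have hT2 : (r * x) ^ (2 ^ (a + 1)) * (2 * x ^ (2 ^ (a + 1) * D)) ≤
      1 / 2 * (P * L * C ^ K * (x + r) ^ K) := by
    have h1 : r ≤ x ^ ⌈B⌉₊ := by
      refine (show r ≤ x ^ B from hR).trans ?_
      rw [← Real.rpow_natCast]
      exact Real.rpow_le_rpow_of_exponent_le hx (Nat.le_ceil B)
    have h2 : (r * x) ^ K * x ^ (K * D) ≤ L := by
      refine le_trans ?_ hL
      calc (r * x) ^ K * x ^ (K * D) ≤ (x ^ ⌈B⌉₊ * x) ^ K * x ^ (K * D) := by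
            refine mul_le_mul_of_nonneg_right (pow_le_pow_left₀ (by positivity)
              (mul_le_mul_of_nonneg_right h1 hx0.le) K) (by positivity)
        _ = x ^ ((⌈B⌉₊ + 1) * K + K * D) := by
            rw [← pow_succ, ← pow_mul, ← pow_add]
        _ ≤ x ^ (K * (⌈B⌉₊ + 2) * D) := by
            refine pow_le_pow_right₀ hx ?_
            have h3 : (⌈B⌉₊ + 1) * K ≤ (⌈B⌉₊ + 1) * K * D := Nat.le_mul_of_pos_right _ hD
            calc (⌈B⌉₊ + 1) * K + K * D ≤ (⌈B⌉₊ + 1) * K * D + K * D := Nat.add_le_add_right h3 _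
              _ = K * (⌈B⌉₊ + 2) * D := by ring
    have h5 : (r * x) ^ (2 ^ (a + 1)) * (2 * x ^ (2 ^ (a + 1) * D)) =
        2 * ((r * x) ^ K * x ^ (K * D)) := by ring
    rw [h5]
    have h6 : 4 ≤ P * (C ^ K * (x + r) ^ K) := by
      have h7 : 4 ≤ C ^ K * (x + r) ^ K := by
        have : 4 ≤ C ^ K := by linarith
        nlinarith
      nlinarith
    calc 2 * ((r * x) ^ K * x ^ (K * D)) ≤ 2 * L := by linarith
      _ = 1 / 2 * (4 * L) := by ring
      _ ≤ 1 / 2 * (P * (C ^ K * (x + r) ^ K) * L) := by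
          refine mul_le_mul_of_nonneg_left (mul_le_mul_of_nonneg_right h6 (by linarith))
            (by norm_num)
      _ = _ := by ring
  linarith

end Pool.Agent.Helper47.DIL.NUM
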