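import Pool.Agent.Helper16.DIL.Spec

/-!
# BND: from the mean value estimate to the large values
-/

set_option autoImplicit false
set_option linter.all false

namespace Pool.Agent.Helper47.DIL.BND

open Finset Matrix MeasureTheory Pool.Agent.Helper68K9.SG Pool.Agent.Helper16.DIL

theorem main : S_BND := by
  intro N Y J _ t hY h
  have hD : ∀ (b : ℕ → ℂ) (j : J), ∑ n ∈ Icc 1 N, b n * (n : ℂ) ^ (-((t j : ℂ) * Complex.I)) =
      ∑ n ∈ Icc 1 N, b n * ph (t j) n := by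
    intro b j
    refine Finset.sum_congr rfl fun n hn => ?_
    rw [cpow_ph n (Finset.mem_Icc.1 hn).1]
  have hb1 : ∀ b : ℕ → ℂ, (∀ n, ‖b n‖ ≤ 1) → ∑ n ∈ Icc 1 N, ‖b n‖ ^ 2 ≤ (N : ℝ) := by
    intro b hb
    calc ∑ n ∈ Icc 1 N, ‖b n‖ ^ 2 ≤ ∑ _n ∈ Icc 1 N, (1 : ℝ) :=
          Finset.sum_le_sum fun n _ => pow_le_one₀ (norm_nonneg _) (hb n)
      _ = N := by simp
  have hN0 : (0 : ℝ) ≤ N := Nat.cast_nonneg N
  have hR0 : (0 : ℝ) ≤ Fintype.card J := Nat.cast_nonneg _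
  refine ⟨?_, ?_, ?_⟩
  · intro b
    simp only [hD]
    exact h b
  · intro b V hb hV hVN hj
    simp only [hD] at hj
    have h1 : (Fintype.card J : ℝ) * V ^ 2 ≤ ∑ j, ‖∑ n ∈ Icc 1 N, b n * ph (t j) n‖ ^ 2 := by
      calc (Fintype.card J : ℝ) * V ^ 2 = ∑ _j : J, V ^ 2 := by simp
        _ ≤ _ := Finset.sum_le_sum fun j _ => pow_le_pow_left₀ hV.le (hj j) 2
    have h2 := h b
    have h3 : (Y * (N + Fintype.card J)) * ∑ n ∈ Icc 1 N, ‖b n‖ ^ 2 ≤
        (Y * (N + Fintype.card J)) * N := mul_le_mul_of_nonneg_left (hb1 b hb) (by positivity)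
    have h4 : (2 * Y * N) * (Fintype.card J : ℝ) ≤ V ^ 2 * Fintype.card J :=
      mul_le_mul_of_nonneg_right hVN hR0
    rw [le_div_iff₀ (by positivity)]
    nlinarith
  · intro hRN b V S hb hV hj
    simp only [hD] at hj
    have h1 : (S.card : ℝ) * V ^ 2 ≤ ∑ j, ‖∑ n ∈ Icc 1 N, b n * ph (t j) n‖ ^ 2 := by
      calc (S.card : ℝ) * V ^ 2 = ∑ _j ∈ S, V ^ 2 := by simp
        _ ≤ ∑ j ∈ S, ‖∑ n ∈ Icc 1 N, b n * ph (t j) n‖ ^ 2 :=
            Finset.sum_le_sum fun j hjS => pow_le_pow_left₀ hV.le (hj j hjS) 2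
        _ ≤ _ := Finset.sum_le_sum_of_subset_of_nonneg (Finset.subset_univ S)
            (fun _ _ _ => by positivity)
    have h2 := h b
    have h3 : (Y * (N + Fintype.card J)) * ∑ n ∈ Icc 1 N, ‖b n‖ ^ 2 ≤
        (Y * (N + Fintype.card J)) * N := mul_le_mul_of_nonneg_left (hb1 b hb) (by positivity)
    have h4 : (Fintype.card J : ℝ) ≤ N := by exact_mod_cast hRN
    have h5 : (Y * (N + Fintype.card J)) * N ≤ (Y * (N + N)) * N := by
      refine mul_le_mul_of_nonneg_right (mul_le_mul_of_nonneg_left ?_ hY.le) hN0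
      linarith
    rw [le_div_iff₀ (by positivity)]
    nlinarith

end Pool.Agent.Helper47.DIL.BND
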